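import Pool.Agent.H98.KS.Targets2

/-!
# The bound for complete sums
-/

namespace Pool.Agent.H89.KS

open Pool.Agent.H98.KS

theorem ks_GB (hGE : T_GE) (hG0 : T_G0) (hG6 : T_G6) (hG7 : T_G7) : T_GB := by
  classical
  intro k hk
  obtain ⟨p0, hp0⟩ := hG6 k hk
  -- constants for the small primes
  have hex : ∀ p : ℕ, ∃ C : ℝ, 1 ≤ C ∧ (p.Prime → ∀ (j : ℕ) (a b : ℤ), ¬ (p : ℤ) ∣ a →
      ‖GG k a b (p ^ j)‖ ≤ C * ((p : ℝ) ^ j) ^ (-(1 / (k : ℝ)))) := by
    intro p
    by_cases hp : p.Prime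
    · obtain ⟨C, hC, h⟩ := hG7 k p hk hp
      exact ⟨C, hC, fun _ => h⟩
    · exact ⟨1, le_rfl, fun h => absurd h hp⟩
  choose C hC1 hC using hex
  let c : ℕ → ℝ := fun p => if p < p0 then C p else 1
  have hc1 : ∀ p, 1 ≤ c p := by
    intro p
    by_cases h : p < p0
    · simp only [c, if_pos h]; exact hC1 p
    · simp only [c, if_neg h]; exact le_rfl
  have hcp : ∀ p : ℕ, p.Prime → ∀ (j : ℕ) (a b : ℤ), ¬ (p : ℤ) ∣ a →
      ‖GG k a b (p ^ j)‖ ≤ c p * ((p : ℝ) ^ j) ^ (-(1 / (k : ℝ))) := by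
    intro p hp j a b hpa
    by_cases h : p < p0
    · simp only [c, if_pos h]; exact hC p hp j a b hpa
    · simp only [c, if_neg h, one_mul]; exact hp0 p j a b hp (not_lt.1 h) hpa
  have hk0 : 1 ≤ k := by omega
  have key : ∀ q : ℕ, 1 ≤ q → ∀ a b : ℤ, IsCoprime a (q : ℤ) →
      ‖GG k a b q‖ ≤ (∏ p ∈ q.primeFactors, c p) * (q : ℝ) ^ (-(1 / (k : ℝ))) := by
    intro q
    induction q using Nat.recOnPosPrimePosCoprime with
    | zero => intro h; omega
    | one =>
      intro _ a b _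
      have h := (hGE k 1 a b le_rfl).1
      simpa using h
    | prime_pow p n hp hn =>
      intro _ a b hab
      have hpa : ¬ (p : ℤ) ∣ a := by
        intro hd
        have h1 : IsCoprime (p : ℤ) ((p ^ n : ℕ) : ℤ) := hab.of_isCoprime_of_dvd_left hd
        have h2 : (p : ℤ) ∣ ((p ^ n : ℕ) : ℤ) := by
          push_cast
          exact dvd_pow_self _ hn.ne'
        have h3 : IsUnit (p : ℤ) := h1.isUnit_of_dvd' dvd_rfl h2
        rw [Int.isUnit_iff] at h3
        have := hp.two_le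
        omega
      rw [Nat.primeFactors_prime_pow hn.ne' hp, Finset.prod_singleton]
      have := hcp p hp n a b hpa
      push_cast
      exact this
    | coprime q1 q2 h1 h2 hcop ih1 ih2 =>
      intro _ a b hab
      push_cast at hab
      have hc12 : IsCoprime (q1 : ℤ) (q2 : ℤ) := Nat.isCoprime_iff_coprime.2 hcop
      have ha1 : IsCoprime a (q1 : ℤ) := hab.of_mul_right_left
      have ha2 : IsCoprime a (q2 : ℤ) := hab.of_mul_right_right
      have e1 : IsCoprime (a * (q2 : ℤ) ^ (k - 1)) (q1 : ℤ) := ha1.mul_left (hc12.symm.pow_left)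
      have e2 : IsCoprime (a * (q1 : ℤ) ^ (k - 1)) (q2 : ℤ) := ha2.mul_left (hc12.pow_left)
      have f1 := ih1 (by omega) _ b e1
      have f2 := ih2 (by omega) _ b e2
      rw [hG0 k q1 q2 a b hk0 (by omega) (by omega) hcop, norm_mul,
        hcop.primeFactors_mul, Finset.prod_union hcop.disjoint_primeFactors]
      have hp1 : (0 : ℝ) ≤ ∏ p ∈ q1.primeFactors, c p :=
        Finset.prod_nonneg fun p _ => zero_le_one.trans (hc1 p)
      calc _ ≤ ((∏ p ∈ q1.primeFactors, c p) * (q1 : ℝ) ^ (-(1 / (k : ℝ)))) *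
            ((∏ p ∈ q2.primeFactors, c p) * (q2 : ℝ) ^ (-(1 / (k : ℝ)))) :=
            mul_le_mul f1 f2 (norm_nonneg _) (mul_nonneg hp1 (by positivity))
        _ = _ := by
            push_cast
            rw [Real.mul_rpow (Nat.cast_nonneg _) (Nat.cast_nonneg _)]
            ring
  refine ⟨∏ p ∈ Finset.range p0, c p, ?_, fun q a b hq hab => (key q hq a b hab).trans ?_⟩
  · calc (1 : ℝ) = ∏ _p ∈ Finset.range p0, (1 : ℝ) := by simp
      _ ≤ _ := Finset.prod_le_prod (fun _ _ => zero_le_one) fun p _ => hc1 p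
  · refine mul_le_mul_of_nonneg_right ?_ (by positivity)
    have h1 : ∏ p ∈ q.primeFactors, c p = ∏ p ∈ q.primeFactors.filter (fun p => p < p0), c p := by
      symm
      refine Finset.prod_subset (Finset.filter_subset _ _) fun p hp hp' => ?_
      have h2 : ¬ p < p0 := fun h => hp' (Finset.mem_filter.2 ⟨hp, h⟩)
      simp only [c, if_neg h2]
    rw [h1]
    have hsub : q.primeFactors.filter (fun p => p < p0) ⊆ Finset.range p0 := fun p hp =>
      Finset.mem_range.2 (Finset.mem_filter.1 hp).2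
    rw [← Finset.prod_sdiff hsub]
    have h3 : (1 : ℝ) ≤ ∏ p ∈ Finset.range p0 \ q.primeFactors.filter (fun p => p < p0), c p := by
      calc (1 : ℝ) = ∏ _p ∈ Finset.range p0 \ q.primeFactors.filter (fun p => p < p0), (1 : ℝ) := by
            simp
        _ ≤ _ := Finset.prod_le_prod (fun _ _ => zero_le_one) fun p _ => hc1 p
    have h4 : (0 : ℝ) ≤ ∏ p ∈ q.primeFactors.filter (fun p => p < p0), c p :=
      Finset.prod_nonneg fun p _ => zero_le_one.trans (hc1 p)
    nlinarith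

end Pool.Agent.H89.KS
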