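import Pool.Agent.H98.KS.Targets3

open scoped BigOperators
open MeasureTheory

noncomputable section

namespace Pool.Agent.H98.KS

namespace PVaux

theorem ee_sum {ι : Type*} (s : Finset ι) (f : ι → ℝ) : ee (∑ i ∈ s, f i) = ∏ i ∈ s, ee (f i) := by
  unfold ee
  rw [← Complex.exp_sum]
  congr 1
  push_cast
  rw [Finset.mul_sum, Finset.sum_mul]

theorem ee_add (x y : ℝ) : ee (x + y) = ee x * ee y := by
  unfold ee
  rw [← Complex.exp_add]
  congr 1
  push_cast
  ring

theorem conj_ee (x : ℝ) : (starRingEnd ℂ) (ee x) = ee (-x) := by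
  unfold ee
  rw [← Complex.exp_conj]
  congr 1
  have h2 : (starRingEnd ℂ) (2 : ℂ) = 2 := Complex.conj_ofNat 2
  rw [map_mul, map_mul, map_mul, Complex.conj_ofReal, Complex.conj_ofReal, Complex.conj_I, h2]
  push_cast
  ring

theorem cont_ee : Continuous ee := by
  unfold ee
  fun_prop

theorem ee_int (n : ℤ) : ee (n : ℝ) = 1 := by
  unfold ee
  have h := Complex.exp_int_mul_two_pi_mul_I n
  rw [← h]
  congr 1
  push_cast
  ring

theorem one_dim (m : ℤ) : ∫ t in Set.Icc (0 : ℝ) 1, ee (-(m * t)) = if m = 0 then 1 else 0 := by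
  rw [integral_Icc_eq_integral_Ioc, ← intervalIntegral.integral_of_le zero_le_one]
  split_ifs with h
  · subst h
    simp [ee]
  · have hc : (-(2 * (Real.pi : ℂ) * m * Complex.I)) ≠ 0 := by
      have : (m : ℂ) ≠ 0 := by exact_mod_cast h
      have hpi : (Real.pi : ℂ) ≠ 0 := by exact_mod_cast Real.pi_ne_zero
      simp [this, hpi, Complex.I_ne_zero]
    have heq : ∀ t : ℝ, ee (-(m * t)) = Complex.exp ((-(2 * (Real.pi : ℂ) * m * Complex.I)) * t) := by
      intro t
      unfold ee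
      congr 1
      push_cast
      ring
    simp_rw [heq]
    rw [integral_exp_mul_complex hc]
    have e1 : Complex.exp ((-(2 * (Real.pi : ℂ) * m * Complex.I)) * ((1 : ℝ) : ℂ)) = 1 := by
      have h := Complex.exp_int_mul_two_pi_mul_I (-m)
      rw [← h]
      congr 1
      push_cast
      ring
    rw [e1]
    simp

theorem multi (d : ℕ) (m : Fin d → ℤ) :
    ∫ ξ in Set.Icc (0 : Fin d → ℝ) 1, ee (-(∑ i, (m i : ℝ) * ξ i)) = if m = 0 then 1 else 0 := by
  have h1 : (Set.Icc (0 : Fin d → ℝ) 1) = Set.univ.pi (fun _ => Set.Icc (0 : ℝ) 1) := by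
    rw [← Set.pi_univ_Icc]; rfl
  rw [h1, volume_pi, Measure.restrict_pi_pi]
  have h2 : ∀ ξ : Fin d → ℝ, ee (-(∑ i, (m i : ℝ) * ξ i)) = ∏ i, ee (-((m i : ℝ) * ξ i)) := by
    intro ξ
    rw [← ee_sum, Finset.sum_neg_distrib]
  simp_rw [h2]
  rw [integral_fintype_prod_eq_prod (𝕜 := ℂ) (fun i (t : ℝ) => ee (-((m i : ℝ) * t)))]
  have h3 : ∀ i, ∫ t, ee (-((m i : ℝ) * t)) ∂((volume : Measure ℝ).restrict (Set.Icc (0 : ℝ) 1))
      = if m i = 0 then 1 else 0 := fun i => one_dim (m i)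
  simp_rw [h3]
  by_cases hm : m = 0
  · subst hm
    simp
  · rw [if_neg hm]
    obtain ⟨i, hi⟩ : ∃ i, m i ≠ 0 := by
      by_contra hcon
      push Not at hcon
      exact hm (funext hcon)
    exact Finset.prod_eq_zero (Finset.mem_univ i) (if_neg hi)

end PVaux

open PVaux in
theorem ks_PV : T_PV := by
  intro d S f
  have hnorm : ∀ ξ : Fin d → ℝ, ((‖ft S f ξ‖ ^ 2 : ℝ) : ℂ)
      = ∑ x ∈ S, ∑ y ∈ S, f x * (starRingEnd ℂ) (f y) * ee (-(∑ i, ((x i - y i : ℤ) : ℝ) * ξ i)) := by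
    intro ξ
    have : ((‖ft S f ξ‖ ^ 2 : ℝ) : ℂ) = ft S f ξ * (starRingEnd ℂ) (ft S f ξ) := by
      rw [Complex.mul_conj, Complex.normSq_eq_norm_sq]
    rw [this]
    unfold ft
    rw [map_sum, Finset.sum_mul_sum]
    refine Finset.sum_congr rfl (fun x _ => Finset.sum_congr rfl (fun y _ => ?_))
    rw [map_mul, conj_ee]
    have : ee (-(∑ i, ((x i - y i : ℤ) : ℝ) * ξ i))
        = ee (-(∑ i, (x i : ℝ) * ξ i)) * ee (-(-(∑ i, (y i : ℝ) * ξ i))) := by
      rw [← ee_add]
      congr 1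
      push_cast
      simp_rw [sub_mul]
      rw [Finset.sum_sub_distrib]
      ring
    rw [this]
    ring
  have hcont : ∀ m : Fin d → ℤ, Continuous (fun ξ : Fin d → ℝ => ee (-(∑ i, (m i : ℝ) * ξ i))) := by
    intro m
    apply cont_ee.comp
    fun_prop
  have hint : ∀ (x y : Fin d → ℤ), Integrable (fun ξ : Fin d → ℝ =>
      f x * (starRingEnd ℂ) (f y) * ee (-(∑ i, ((x i - y i : ℤ) : ℝ) * ξ i)))
      (volume.restrict (Set.Icc (0 : Fin d → ℝ) 1)) := by
    intro x y
    have hc : Continuous (fun ξ : Fin d → ℝ =>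
      f x * (starRingEnd ℂ) (f y) * ee (-(∑ i, ((x i - y i : ℤ) : ℝ) * ξ i))) :=
      continuous_const.mul (hcont (fun i => x i - y i))
    exact (hc.continuousOn).integrableOn_compact isCompact_Icc
  have key : ((∫ ξ in Set.Icc (0 : Fin d → ℝ) 1, ‖ft S f ξ‖ ^ 2 : ℝ) : ℂ)
      = ((∑ x ∈ S, ‖f x‖ ^ 2 : ℝ) : ℂ) := by
    rw [← integral_complex_ofReal]
    simp_rw [hnorm]
    rw [integral_finsetSum _ (fun x _ => integrable_finsetSum _ (fun y _ => hint x y))]
    rw [Complex.ofReal_sum]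
    refine Finset.sum_congr rfl (fun x hx => ?_)
    rw [integral_finsetSum _ (fun y _ => hint x y)]
    have : ∀ y ∈ S, ∫ ξ in Set.Icc (0 : Fin d → ℝ) 1,
        f x * (starRingEnd ℂ) (f y) * ee (-(∑ i, ((x i - y i : ℤ) : ℝ) * ξ i))
        = if x = y then f x * (starRingEnd ℂ) (f y) else 0 := by
      intro y _
      rw [integral_const_mul, multi d (fun i => x i - y i)]
      by_cases hxy : x = y
      · subst hxy
        have : (fun i => x i - x i) = (0 : Fin d → ℤ) := by funext i; simp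
        rw [if_pos this, if_pos rfl, mul_one]
      · have : (fun i => x i - y i) ≠ (0 : Fin d → ℤ) := by
          intro h
          apply hxy
          funext i
          have := congrFun h i
          simp only [Pi.zero_apply] at this
          omega
        rw [if_neg this, if_neg hxy, mul_zero]
    rw [Finset.sum_congr rfl this, Finset.sum_ite_eq, if_pos hx, Complex.mul_conj,
      Complex.normSq_eq_norm_sq]
  exact_mod_cast key.symm

end Pool.Agent.H98.KS
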